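import Pool.Agent.Q45.Bes.Real

/-!
Fourier critical points: definitions and the case `n = 1`.
-/

namespace Q45.Bes

open Filter Topology

/-- the coefficients of `f_{ν,n}` -/
noncomputable def fcoef (n : ℕ) (ν : ℝ) (m : ℕ) : ℝ :=
  Real.Gamma (2 * m + ν + 1) /
    (m.factorial * Real.Gamma (m + ν + 1) * Real.Gamma (2 * m + ν - n + 1))

/-- the function `f_{ν,n}` -/
noncomputable def f (n : ℕ) (ν : ℝ) (x : ℝ) : ℝ := ∑' m : ℕ, fcoef n ν m * x ^ m

/-- Number of critical zeros of `F^(l)` at a point `c` which is a zero of `F^(l)` of order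
exactly `m`. -/
noncomputable def criticalZeros (F : ℝ → ℝ) (l m : ℕ) (c : ℝ) : ℕ :=
  if iteratedDeriv (l - 1) F c = 0 then 0
  else if Even m then m / 2
  else if 0 < iteratedDeriv (l - 1) F c * iteratedDeriv (l + m) F c then (m + 1) / 2
  else (m - 1) / 2

/-- `c` is a Fourier critical point of `F`. -/
def IsFourierCritical (F : ℝ → ℝ) (c : ℝ) : Prop :=
  ∃ l m : ℕ, 1 ≤ l ∧ 1 ≤ m ∧ (∀ j < m, iteratedDeriv (l + j) F c = 0) ∧
    iteratedDeriv (l + m) F c ≠ 0 ∧ 0 < criticalZeros F l m c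

/-- Criterion for the absence of Fourier critical points. -/
theorem not_critical {F : ℝ → ℝ} {c : ℝ}
    (h : ∀ l : ℕ, iteratedDeriv (l + 1) F c = 0 → (∃ m, iteratedDeriv (l + 1 + m) F c ≠ 0) →
      iteratedDeriv l F c * iteratedDeriv (l + 2) F c < 0) :
    ¬ IsFourierCritical F c := by
  rintro ⟨l, m, hl, hm, h0, h1, h2⟩
  obtain ⟨L, rfl⟩ : ∃ L, l = L + 1 := ⟨l - 1, by omega⟩
  have h3 := h L (by simpa using h0 0 (by omega)) ⟨m, h1⟩
  have hm1 : m = 1 := by
    by_contra hne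
    have := h0 1 (by omega)
    rw [this] at h3
    simp at h3
  subst hm1
  unfold criticalZeros at h2
  simp only [Nat.add_sub_cancel] at h2
  rw [if_neg, if_neg (by decide), if_neg] at h2
  · simp at h2
  · exact not_lt.mpr h3.le
  · intro h4
    rw [h4] at h3
    simp at h3

theorem exp_sub_one_le {t : ℝ} (h0 : 0 ≤ t) (h : t ≤ 1 / 2) : Real.exp t - 1 ≤ 2 * t := by
  have h1 := Real.one_sub_le_exp_neg t
  have h2 : Real.exp t * Real.exp (-t) = 1 := by rw [← Real.exp_add]; simp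
  have h3 := Real.exp_pos t
  nlinarith [mul_le_mul_of_nonneg_left h1 h3.le]

/-- if two consecutive `g` vanish at `c ≠ 0`, all later ones do -/
theorem g_zero_all {μ c : ℝ} (hc : c ≠ 0) (h0 : g μ c = 0) (h1 : g (μ + 1) c = 0) (k : ℕ) :
    g (μ + k) c = 0 ∧ g (μ + k + 1) c = 0 := by
  induction k with
  | zero => simpa using ⟨h0, h1⟩
  | succ k ih =>
    have h2 := g_rec (μ + k) c
    rw [ih.1, ih.2] at h2
    have h3 : g (μ + k + 2) c = 0 := by
      have : c * g (μ + k + 2) c = 0 := by linarith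
      exact (mul_eq_zero.mp this).resolve_left hc
    push_cast
    rw [show μ + (k + 1 : ℝ) = μ + k + 1 by ring, show μ + (k : ℝ) + 1 + 1 = μ + k + 2 by ring]
    exact ⟨ih.2, h3⟩

/-- derivatives for `n = 1` -/
noncomputable def D1 (ν : ℝ) (l : ℕ) (x : ℝ) : ℝ :=
  (ν + 2 * l) * g (ν + l) x + 2 * x * g (ν + l + 1) x

theorem D1_hasDerivAt (ν : ℝ) (l : ℕ) (x : ℝ) : HasDerivAt (D1 ν l) (D1 ν (l + 1) x) x := by
  unfold D1
  have h1 := (g_hasDerivAt (ν + l) x).const_mul (ν + 2 * l)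
  have h2 := ((hasDerivAt_id x).const_mul 2).mul (g_hasDerivAt (ν + l + 1) x)
  have h3 := h1.add h2
  refine h3.congr_deriv ?_
  simp only [id_eq]
  push_cast
  rw [show ν + (l + 1 : ℝ) = ν + l + 1 by ring]
  ring

theorem D1_iter {ν : ℝ} {F : ℝ → ℝ} (hF : F = D1 ν 0) (l : ℕ) : iteratedDeriv l F = D1 ν l := by
  induction l with
  | zero => rw [iteratedDeriv_zero, hF]
  | succ l ih =>
    rw [iteratedDeriv_succ, ih]
    funext x
    exact (D1_hasDerivAt ν l x).deriv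

theorem f_one_eq {ν : ℝ} (h1 : -2 < ν) (h2 : ν < -1) : f 1 ν = D1 ν 0 := by
  funext x
  have hc : ∀ m : ℕ, fcoef 1 ν m = (2 * m + ν) * bc ν m := by
    intro m
    have hne : ∀ k : ℕ, (2 * m + ν : ℝ) ≠ -k := by
      intro k hk
      have h3 : (-2 : ℝ) < -(k : ℝ) - 2 * m := by linarith
      have h4 : -(k : ℝ) - 2 * m < -1 := by linarith
      have h5 : (k : ℤ) + 2 * m < 2 := by
        have : ((k : ℤ) + 2 * m : ℝ) < 2 := by push_cast; linarith
        exact_mod_cast this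
      have h6 : (1 : ℤ) < (k : ℤ) + 2 * m := by
        have : (1 : ℝ) < ((k : ℤ) + 2 * m : ℝ) := by push_cast; linarith
        exact_mod_cast this
      omega
    have h0 : (2 * m + ν : ℝ) ≠ 0 := by simpa using hne 0
    have hG := Real.Gamma_ne_zero hne
    unfold fcoef bc
    rw [show (2 * m + ν - (1 : ℕ) + 1 : ℝ) = 2 * m + ν by push_cast; ring, Real.Gamma_add_one h0]
    field_simp
  unfold f D1
  simp_rw [hc]
  have h3 := (g_theta ν x).mul_left 2
  have h4 := ((bc_ent ν).hasSum x).mul_left ν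
  have h5 := (h3.add h4).tsum_eq
  have e : (fun m : ℕ => (2 * (m : ℝ) + ν) * bc ν m * x ^ m) =
      fun m : ℕ => 2 * ((m : ℝ) * bc ν m * x ^ m) + ν * (bc ν m * x ^ m) := by
    funext m; ring
  rw [e, h5]
  simp only [Nat.cast_zero, mul_zero, add_zero]
  unfold g
  ring

theorem D1_one_pos {ν : ℝ} (h1 : -(51 / 50) < ν) (h2 : ν < -1) {x : ℝ} (hx : -(ν ^ 2 / 4) ≤ x)
    (hx0 : x ≤ 0) : 0 < D1 ν 1 x := by
  have e1 : D1 ν 1 x = (((ν + 2) ^ 2 + 2 * x) * (ν + 3) + (ν + 2) * x) * g (ν + 3) x +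
      ((ν + 2) ^ 2 + 2 * x) * x * g (ν + 4) x := by
    unfold D1
    have r1 := g_rec (ν + 1) x
    have r2 := g_rec (ν + 2) x
    rw [show ν + 1 + 1 = ν + 2 by ring, show ν + 1 + 2 = ν + 3 by ring] at r1
    rw [show ν + 2 + 1 = ν + 3 by ring, show ν + 2 + 2 = ν + 4 by ring] at r2
    push_cast
    rw [show ν + 1 + 1 = ν + 2 by ring, r1, r2]
    ring
  have b0 : 0 < bc (ν + 3) 0 := bc_pos (by linarith) 0
  have b1 : bc (ν + 3) 0 = (ν + 4) * bc (ν + 4) 0 := by
    have := bc_rec (ν + 3) 0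
    rw [show ν + 3 + 1 = ν + 4 by ring] at this
    rw [this]; push_cast; ring
  have b2 : 0 < bc (ν + 4) 0 := bc_pos (by linarith) 0
  have hν2 : ν ^ 2 ≤ (51 / 50) ^ 2 := by nlinarith
  have hxl : -(2601 / 10000) ≤ x := by nlinarith
  have n1 := g_near (μ := ν + 3) (by linarith) x
  have n2 := g_near (μ := ν + 4) (by linarith) x
  have t1 : |x| / (ν + 3 + 1) ≤ 9 / 100 := by
    rw [div_le_iff₀ (by linarith), abs_of_nonpos hx0]; nlinarith
  have t2 : |x| / (ν + 4 + 1) ≤ 9 / 100 := by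
    rw [div_le_iff₀ (by linarith), abs_of_nonpos hx0]; nlinarith
  have t10 : 0 ≤ |x| / (ν + 3 + 1) := div_nonneg (abs_nonneg _) (by linarith)
  have t20 : 0 ≤ |x| / (ν + 4 + 1) := div_nonneg (abs_nonneg _) (by linarith)
  have s1 := exp_sub_one_le t10 (by linarith)
  have s2 := exp_sub_one_le t20 (by linarith)
  have u1 : (82 / 100) * bc (ν + 3) 0 ≤ g (ν + 3) x := by
    have := (abs_le.mp n1).1
    nlinarith
  have u2 : g (ν + 4) x ≤ (118 / 100) * bc (ν + 4) 0 := by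
    have := (abs_le.mp n2).2
    nlinarith
  have u3 : g (ν + 4) x ≤ (4 / 10) * bc (ν + 3) 0 := by
    rw [b1]; nlinarith
  have u4 : 0 ≤ g (ν + 4) x := by
    have := (abs_le.mp n2).1
    nlinarith
  have c1 : 6 / 10 ≤ ((ν + 2) ^ 2 + 2 * x) * (ν + 3) + (ν + 2) * x := by nlinarith
  have c2 : -(27 / 100) ≤ ((ν + 2) ^ 2 + 2 * x) * x := by nlinarith
  rw [e1]
  have v1 : (6 / 10) * ((82 / 100) * bc (ν + 3) 0) ≤
      (((ν + 2) ^ 2 + 2 * x) * (ν + 3) + (ν + 2) * x) * g (ν + 3) x := by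
    apply mul_le_mul c1 u1 (by positivity) (by linarith)
  have v2 : -(27 / 100) * ((4 / 10) * bc (ν + 3) 0) ≤ ((ν + 2) ^ 2 + 2 * x) * x * g (ν + 4) x := by
    nlinarith
  nlinarith

/-- No Fourier critical points for `n = 1` and `ν` slightly below `-1`. -/
theorem no_critical_one {ν : ℝ} (h1 : -(51 / 50) < ν) (h2 : ν < -1) (c : ℝ) :
    ¬ IsFourierCritical (f 1 ν) c := by
  have hF := f_one_eq (by linarith) h2
  apply not_critical
  intro L h0 hne
  rw [D1_iter hF] at h0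
  simp only [D1_iter hF] at hne ⊢
  have hL0 : (0 : ℝ) ≤ L := Nat.cast_nonneg L
  -- the point is negative
  have hc : c < 0 := by
    by_contra hcn
    push Not at hcn
    have p1 := g_pos (μ := ν + (L + 1 : ℕ)) (by push_cast; linarith) hcn
    have p2 := g_pos (μ := ν + (L + 1 : ℕ) + 1) (by push_cast; linarith) hcn
    have : 0 < D1 ν (L + 1) c := by
      unfold D1
      have : 0 < ν + 2 * ((L + 1 : ℕ) : ℝ) := by push_cast; linarith
      positivity
    linarith
  obtain ⟨A, hA⟩ : ∃ A, A = g (ν + L + 1) c := ⟨_, rfl⟩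
  obtain ⟨B, hB⟩ : ∃ B, B = g (ν + L + 2) c := ⟨_, rfl⟩
  have e1 : D1 ν (L + 1) c = (ν + 2 * L + 2) * A + 2 * c * B := by
    unfold D1
    push_cast
    rw [hA, hB, show ν + (L + 1 : ℝ) = ν + L + 1 by ring, show ν + (L : ℝ) + 1 + 1 = ν + L + 2 by ring]
    ring
  have e0 : D1 ν L c = (ν + 2 * L) * ((ν + L + 1) * A + c * B) + 2 * c * A := by
    unfold D1
    have := g_rec (ν + L) c
    rw [this, hA, hB]
  have e2 : D1 ν (L + 2) c = 2 * A - ν * B := by
    unfold D1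
    have := g_rec (ν + L + 1) c
    rw [show ν + (L : ℝ) + 1 + 1 = ν + L + 2 by ring, ← hA, ← hB] at this
    push_cast
    rw [show ν + (L + 2 : ℝ) = ν + L + 2 by ring, show ν + (L : ℝ) + 2 + 1 = ν + L + 1 + 2 by ring,
      ← hB]
    linear_combination (-2) * this
  have hA0 : A ≠ 0 := by
    intro hA0
    have hB0 : B = 0 := by
      rw [e1, hA0] at h0
      have : c * B = 0 := by linarith
      exact (mul_eq_zero.mp this).resolve_left hc.ne
    obtain ⟨m, hm⟩ := hne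
    apply hm
    have hz := g_zero_all (μ := ν + L + 1) hc.ne (by rw [← hA]; exact hA0)
      (by rw [show ν + (L : ℝ) + 1 + 1 = ν + L + 2 by ring, ← hB]; exact hB0) m
    unfold D1
    push_cast
    rw [show ν + (L + 1 + m : ℝ) = ν + L + 1 + m by ring, hz.1, hz.2]
    ring
  have k0 : 2 * c * B = -(ν + 2 * L + 2) * A := by
    rw [e1] at h0; linarith
  have k1 : 2 * D1 ν L c = A * (4 * c + ν * (ν + 2 * L)) := by
    rw [e0]; linear_combination (ν + 2 * L) * k0
  have k2 : 2 * c * D1 ν (L + 2) c = A * (4 * c + ν * (ν + 2 * L + 2)) := by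
    rw [e2]; linear_combination (-ν) * k0
  -- the sign
  have q1 : 4 * c + ν * (ν + 2 * L) < 0 := by
    rcases Nat.eq_zero_or_pos L with hL | hL
    · subst hL
      by_contra hcon
      push Not at hcon
      have := D1_one_pos h1 h2 (x := c) (by push_cast at hcon; nlinarith) hc.le
      simp only [zero_add] at h0
      linarith
    · have : (1 : ℝ) ≤ L := by exact_mod_cast hL
      nlinarith
  have q2 : 4 * c + ν * (ν + 2 * L + 2) < 0 := by nlinarith
  have q3 : 0 < (4 * c + ν * (ν + 2 * L)) * (4 * c + ν * (ν + 2 * L + 2)) :=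
    mul_pos_of_neg_of_neg q1 q2
  have q4 : (4 * c) * (D1 ν L c * D1 ν (L + 2) c) =
      A ^ 2 * ((4 * c + ν * (ν + 2 * L)) * (4 * c + ν * (ν + 2 * L + 2))) := by
    have : (4 * c) * (D1 ν L c * D1 ν (L + 2) c) = (2 * D1 ν L c) * (2 * c * D1 ν (L + 2) c) := by
      ring
    rw [this, k1, k2]; ring
  have q5 : 0 < (4 * c) * (D1 ν L c * D1 ν (L + 2) c) := by
    rw [q4]; positivity
  by_contra hcon
  push Not at hcon
  have : (4 * c) * (D1 ν L c * D1 ν (L + 2) c) ≤ 0 := by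
    apply mul_nonpos_of_nonpos_of_nonneg (by linarith) hcon
  linarith

end Q45.Bes
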