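import Pool.Agent.Q45.Bes.Fourier

/-!
Fourier critical points: the case `n = 2`.
-/

namespace Q45.Bes

open Filter Topology

/-- derivatives for `n = 2` -/
noncomputable def D2 (ν : ℝ) (l : ℕ) (x : ℝ) : ℝ :=
  (4 * x + (ν + 2 * l) * (ν + 2 * l - 1)) * g (ν + l) x + (4 * l - 2) * x * g (ν + l + 1) x

theorem D2_hasDerivAt (ν : ℝ) (l : ℕ) (x : ℝ) : HasDerivAt (D2 ν l) (D2 ν (l + 1) x) x := by
  unfold D2
  have h0 := ((hasDerivAt_id x).const_mul 4).add_const ((ν + 2 * l) * (ν + 2 * l - 1))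
  have h1 := h0.mul (g_hasDerivAt (ν + l) x)
  have h2 := ((hasDerivAt_id x).const_mul (4 * (l : ℝ) - 2)).mul (g_hasDerivAt (ν + l + 1) x)
  have h3 := h1.add h2
  refine h3.congr_deriv ?_
  have hr := g_rec (ν + l) x
  simp only [id_eq]
  push_cast
  rw [show ν + (l + 1 : ℝ) = ν + l + 1 by ring, show ν + (l : ℝ) + 1 + 1 = ν + l + 2 by ring, hr]
  ring

theorem D2_iter {ν : ℝ} {F : ℝ → ℝ} (hF : F = D2 ν 0) (l : ℕ) : iteratedDeriv l F = D2 ν l := by
  induction l with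
  | zero => rw [iteratedDeriv_zero, hF]
  | succ l ih =>
    rw [iteratedDeriv_succ, ih]
    funext x
    exact (D2_hasDerivAt ν l x).deriv

theorem not_int_aux {ν : ℝ} (h1 : -2 < ν) (h2 : ν < -1) (m : ℕ) (k : ℕ) :
    (2 * m + ν : ℝ) ≠ -k ∧ (2 * m + ν - 1 : ℝ) ≠ -k := by
  constructor
  · intro hk
    have h3 : (-2 : ℝ) < -(k : ℝ) - 2 * m := by linarith
    have h4 : -(k : ℝ) - 2 * m < -1 := by linarith
    have h5 : (k : ℤ) + 2 * m < 2 := by
      have : ((k : ℤ) + 2 * m : ℝ) < 2 := by push_cast; linarith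
      exact_mod_cast this
    have h6 : (1 : ℤ) < (k : ℤ) + 2 * m := by
      have : (1 : ℝ) < ((k : ℤ) + 2 * m : ℝ) := by push_cast; linarith
      exact_mod_cast this
    omega
  · intro hk
    have h3 : (-3 : ℝ) < -(k : ℝ) - 2 * m := by linarith
    have h4 : -(k : ℝ) - 2 * m < -2 := by linarith
    have h5 : (k : ℤ) + 2 * m < 3 := by
      have : ((k : ℤ) + 2 * m : ℝ) < 3 := by push_cast; linarith
      exact_mod_cast this
    have h6 : (2 : ℤ) < (k : ℤ) + 2 * m := by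
      have : (2 : ℝ) < ((k : ℤ) + 2 * m : ℝ) := by push_cast; linarith
      exact_mod_cast this
    omega

theorem f_two_eq {ν : ℝ} (h1 : -2 < ν) (h2 : ν < -1) : f 2 ν = D2 ν 0 := by
  funext x
  have hc : ∀ m : ℕ, fcoef 2 ν m = (2 * m + ν) * (2 * m + ν - 1) * bc ν m := by
    intro m
    have hne := not_int_aux h1 h2 m
    have h0 : (2 * m + ν : ℝ) ≠ 0 := by simpa using (hne 0).1
    have h00 : (2 * m + ν - 1 : ℝ) ≠ 0 := by simpa using (hne 0).2
    have hG := Real.Gamma_ne_zero (fun k => (hne k).2)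
    have e1 : Real.Gamma (2 * m + ν + 1) =
        (2 * m + ν) * ((2 * m + ν - 1) * Real.Gamma (2 * m + ν - 1)) := by
      have e2 := Real.Gamma_add_one h00
      rw [sub_add_cancel] at e2
      rw [Real.Gamma_add_one h0, e2]
    unfold fcoef bc
    rw [show (2 * m + ν - (2 : ℕ) + 1 : ℝ) = 2 * m + ν - 1 by push_cast; ring, e1]
    generalize Real.Gamma (2 * m + ν - 1) = G at hG
    generalize Real.Gamma (m + ν + 1) = H
    rw [show (m.factorial : ℝ) * H * G = G * (m.factorial * H) by ring,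
      show (2 * (m : ℝ) + ν) * ((2 * m + ν - 1) * G) =
      G * ((2 * (m : ℝ) + ν) * (2 * m + ν - 1)) by ring, mul_div_mul_left _ _ hG]
    ring
  unfold f D2
  simp_rw [hc]
  -- first term: `m (m + ν) bc ν m = ...`
  have h5 : HasSum (fun m : ℕ => (m : ℝ) * (m + ν) * bc ν m * x ^ m) (x * g ν x) := by
    rw [← hasSum_nat_add_iff' 1]
    simp only [Finset.range_one, Finset.sum_singleton, Nat.cast_zero, zero_mul, sub_zero]
    have h := ((bc_ent ν).hasSum x).mul_left x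
    have e : (fun n : ℕ => ((n + 1 : ℕ) : ℝ) * (((n + 1 : ℕ) : ℝ) + ν) * bc ν (n + 1) * x ^ (n + 1)) =
        fun i => x * (bc ν i * x ^ i) := by
      funext m
      have a1 := bc_succ ν m
      have a2 := bc_rec ν m
      calc ((m + 1 : ℕ) : ℝ) * (((m + 1 : ℕ) : ℝ) + ν) * bc ν (m + 1) * x ^ (m + 1)
          = (((m + 1 : ℕ) : ℝ) + ν) * (((m + 1 : ℕ) : ℝ) * bc ν (m + 1)) * x ^ (m + 1) := by ring
        _ = x * (bc ν m * x ^ m) := by rw [a1, a2]; push_cast; ring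
    rw [e]
    exact h
  have h3 := (g_theta ν x).mul_left (-2)
  have h4 := ((bc_ent ν).hasSum x).mul_left (ν * (ν - 1))
  have h6 := (((h5.mul_left 4).add h3).add h4).tsum_eq
  have e : (fun m : ℕ => (2 * (m : ℝ) + ν) * (2 * m + ν - 1) * bc ν m * x ^ m) =
      fun m : ℕ => 4 * ((m : ℝ) * (m + ν) * bc ν m * x ^ m) + -2 * ((m : ℝ) * bc ν m * x ^ m) +
        ν * (ν - 1) * (bc ν m * x ^ m) := by
    funext m; ring
  rw [e, h6]
  simp only [Nat.cast_zero, mul_zero, add_zero]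
  unfold g
  ring

/-- bounds for two consecutive functions near the origin -/
theorem near_bounds {ν : ℝ} (h1 : -(101 / 100) < ν) (h2 : ν < -1) {x s : ℝ} (hx : -s ≤ x)
    (hx0 : x ≤ 0) (hs : s ≤ 8 / 10) :
    0 < bc (ν + 3) 0 ∧ (1 - 7 / 10 * s) * bc (ν + 3) 0 ≤ g (ν + 3) x ∧ 0 ≤ g (ν + 4) x ∧
      g (ν + 4) x ≤ (48 / 100) * bc (ν + 3) 0 := by
  have b0 : 0 < bc (ν + 3) 0 := bc_pos (by linarith) 0
  have b1 : bc (ν + 3) 0 = (ν + 4) * bc (ν + 4) 0 := by
    have := bc_rec (ν + 3) 0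
    rw [show ν + 3 + 1 = ν + 4 by ring] at this
    rw [this]; push_cast; ring
  have b2 : 0 < bc (ν + 4) 0 := bc_pos (by linarith) 0
  have n1 := g_near (μ := ν + 3) (by linarith) x
  have n2 := g_near (μ := ν + 4) (by linarith) x
  have hs0 : 0 ≤ s := by linarith
  have t1 : |x| / (ν + 3 + 1) ≤ 35 / 100 * s := by
    rw [div_le_iff₀ (by linarith), abs_of_nonpos hx0]; nlinarith
  have t2 : |x| / (ν + 4 + 1) ≤ 26 / 100 * s := by
    rw [div_le_iff₀ (by linarith), abs_of_nonpos hx0]; nlinarith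
  have t10 : 0 ≤ |x| / (ν + 3 + 1) := div_nonneg (abs_nonneg _) (by linarith)
  have t20 : 0 ≤ |x| / (ν + 4 + 1) := div_nonneg (abs_nonneg _) (by linarith)
  have s1 := exp_sub_one_le t10 (by linarith)
  have s2 := exp_sub_one_le t20 (by linarith)
  refine ⟨b0, ?_, ?_, ?_⟩
  · have := (abs_le.mp n1).1
    nlinarith
  · have := (abs_le.mp n2).1
    nlinarith
  · have := (abs_le.mp n2).2
    have h5 : g (ν + 4) x ≤ (1 + 42 / 100) * bc (ν + 4) 0 := by nlinarith
    rw [b1]; nlinarith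

theorem D2_one_neg {ν : ℝ} (h1 : -(101 / 100) < ν) (h2 : ν < -1) {x : ℝ} (hx : -(8 / 10) ≤ x)
    (hx0 : x ≤ 0) : D2 ν 1 x < 0 := by
  obtain ⟨b0, u1, u2, u3⟩ := near_bounds h1 h2 hx hx0 le_rfl
  have e1 : D2 ν 1 x = (((4 * ν + 10) * x + (ν + 1) * (ν + 2) ^ 2) * (ν + 3) +
      (4 * x + (ν + 2) * (ν + 1)) * x) * g (ν + 3) x +
      ((4 * ν + 10) * x + (ν + 1) * (ν + 2) ^ 2) * x * g (ν + 4) x := by
    unfold D2
    have r1 := g_rec (ν + 1) x
    have r2 := g_rec (ν + 2) x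
    rw [show ν + 1 + 1 = ν + 2 by ring, show ν + 1 + 2 = ν + 3 by ring] at r1
    rw [show ν + 2 + 1 = ν + 3 by ring, show ν + 2 + 2 = ν + 4 by ring] at r2
    push_cast
    rw [show ν + 1 + 1 = ν + 2 by ring, r1, r2]
    ring
  rw [e1]
  obtain ⟨e, he⟩ : ∃ e, e = -1 - ν := ⟨_, rfl⟩
  obtain ⟨X, hX⟩ : ∃ X, X = -x := ⟨_, rfl⟩
  have hν : ν = -1 - e := by linarith
  have hxX : x = -X := by linarith
  subst hν
  subst hxX
  have e0 : 0 < e := by linarith
  have e00 : e < 1 / 100 := by linarith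
  have X0 : 0 ≤ X := by linarith
  have X1 : X ≤ 8 / 10 := by linarith
  -- bound the two coefficients
  have k1 : ((4 * (-1 - e) + 10) * -X + (-1 - e + 1) * (-1 - e + 2) ^ 2) * (-1 - e + 3) +
      (4 * -X + (-1 - e + 2) * (-1 - e + 1)) * -X ≤ -(8 * X + (15 / 10) * e) := by
    nlinarith [mul_nonneg X0 e0.le, mul_nonneg (mul_nonneg X0 e0.le) e0.le, mul_nonneg X0 X0,
      mul_nonneg e0.le e0.le, mul_nonneg (mul_nonneg e0.le e0.le) e0.le,
      mul_nonneg X0 (sub_nonneg.mpr X1), mul_nonneg X0 (sub_nonneg.mpr e00.le),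
      mul_nonneg e0.le (sub_nonneg.mpr e00.le), mul_nonneg e0.le (sub_nonneg.mpr X1)]
  have k2 : ((4 * (-1 - e) + 10) * -X + (-1 - e + 1) * (-1 - e + 2) ^ 2) * -X ≤
      (8 / 10) * (6 * X + e) := by
    have h3 : (4 * (-1 - e) + 10) * X + e * (1 - e) ^ 2 ≤ 6 * X + e := by
      nlinarith [mul_nonneg X0 e0.le, mul_nonneg e0.le e0.le,
        mul_nonneg e0.le (sub_nonneg.mpr (show (1 - e) ^ 2 ≤ 1 by nlinarith))]
    have h4 : 0 ≤ 6 * X + e := by positivity
    nlinarith [mul_le_mul_of_nonneg_left h3 X0, mul_le_mul_of_nonneg_right X1 h4]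
  have k3 : 0 ≤ 8 * X + (15 / 10) * e := by positivity
  have k4 : 0 ≤ (8 / 10) * (6 * X + e) := by positivity
  have v1 := mul_le_mul_of_nonneg_right k1 (show 0 ≤ g (-1 - e + 3) (-X) by nlinarith)
  have v2 := mul_le_mul_of_nonneg_left u1 k3
  have v3 := mul_le_mul_of_nonneg_right k2 u2
  have v4 := mul_le_mul_of_nonneg_left u3 k4
  have v5 : 0 < bc (-1 - e + 3) 0 * e := mul_pos b0 e0
  have v6 : 0 ≤ bc (-1 - e + 3) 0 * X := mul_nonneg b0.le X0
  nlinarith

theorem D2_two_pos {ν : ℝ} (h1 : -(101 / 100) < ν) (h2 : ν < -1) {x : ℝ} (hx : -(1 / 10) ≤ x)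
    (hx0 : x ≤ 0) : 0 < D2 ν 2 x := by
  obtain ⟨b0, u1, u2, u3⟩ := near_bounds h1 h2 hx hx0 (by norm_num)
  have e1 : D2 ν 2 x = ((4 * x + (ν + 4) * (ν + 3)) * (ν + 3) + 6 * x) * g (ν + 3) x +
      (4 * x + (ν + 4) * (ν + 3)) * x * g (ν + 4) x := by
    unfold D2
    have r2 := g_rec (ν + 2) x
    rw [show ν + 2 + 1 = ν + 3 by ring, show ν + 2 + 2 = ν + 4 by ring] at r2
    push_cast
    rw [show ν + 2 + 1 = ν + 3 by ring, r2]
    ring
  rw [e1]
  have k0 : 5 ≤ 4 * x + (ν + 4) * (ν + 3) := by nlinarith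
  have k01 : 4 * x + (ν + 4) * (ν + 3) ≤ 6 := by nlinarith
  have k1 : 9 ≤ (4 * x + (ν + 4) * (ν + 3)) * (ν + 3) + 6 * x := by nlinarith
  have k2 : -(6 / 10) ≤ (4 * x + (ν + 4) * (ν + 3)) * x := by nlinarith
  have v1 := mul_le_mul_of_nonneg_right k1 (show 0 ≤ g (ν + 3) x by nlinarith)
  have v3 := mul_le_mul_of_nonneg_right k2 u2
  nlinarith

theorem Q1_pos {ν : ℝ} (h1 : -(101 / 100) < ν) (h2 : ν < -1) {L : ℝ} (hL : 2 ≤ L) {c : ℝ}
    (hc : c < 0) :
    0 < (4 * c + (ν + 2 * L) * (ν + 2 * L - 1)) * (4 * c + ν * (ν + 1)) -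
      (4 * L - 2) * (4 * L + 2) * c := by
  have e : (4 * c + (ν + 2 * L) * (ν + 2 * L - 1)) * (4 * c + ν * (ν + 1)) -
      (4 * L - 2) * (4 * L + 2) * c = 16 * c ^ 2 +
      (-1 + 2 * L * (1 - 2 * ν) - 2 * ν ^ 2) * (-4 * c) +
      ((ν + 2 * L) * (ν + 2 * L - 1)) * (ν * (ν + 1)) := by ring
  rw [e]
  have k1 : 0 < -1 + 2 * L * (1 - 2 * ν) - 2 * ν ^ 2 := by nlinarith
  have k2 : 0 < (ν + 2 * L) * (ν + 2 * L - 1) := mul_pos (by linarith) (by linarith)
  have k3 : 0 < ν * (ν + 1) := mul_pos_of_neg_of_neg (by linarith) (by linarith)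
  have k4 := mul_pos k1 (show 0 < -4 * c by linarith)
  have k5 := mul_pos k2 k3
  nlinarith [sq_nonneg c]

/-- No Fourier critical points for `n = 2` and `ν` slightly below `-1`. -/
theorem no_critical_two {ν : ℝ} (h1 : -(101 / 100) < ν) (h2 : ν < -1) (c : ℝ) :
    ¬ IsFourierCritical (f 2 ν) c := by
  have hF := f_two_eq (by linarith) h2
  apply not_critical
  intro L h0 hne
  rw [D2_iter hF] at h0
  simp only [D2_iter hF] at hne ⊢
  have hL0 : (0 : ℝ) ≤ L := Nat.cast_nonneg L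
  have hc0 : c ≠ 0 := by
    rintro rfl
    have p1 := g_pos (μ := ν + (L + 1 : ℕ)) (by push_cast; linarith) (le_refl (0 : ℝ))
    unfold D2 at h0
    simp only [mul_zero, zero_add, zero_mul, add_zero] at h0
    rcases mul_eq_zero.mp h0 with h3 | h3
    · push_cast at h3
      rcases mul_eq_zero.mp h3 with h4 | h4
      · linarith
      · rcases Nat.eq_zero_or_pos L with hL | hL
        · subst hL; push_cast at h4; linarith
        · have : (1 : ℝ) ≤ L := by exact_mod_cast hL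
          linarith
    · linarith
  have hcneg : 1 ≤ L → c < 0 := by
    intro hL
    by_contra hcn
    push Not at hcn
    have hL1 : (1 : ℝ) ≤ L := by exact_mod_cast hL
    have p1 := g_pos (μ := ν + (L + 1 : ℕ)) (by push_cast; linarith) hcn
    have p2 := g_pos (μ := ν + (L + 1 : ℕ) + 1) (by push_cast; linarith) hcn
    have : 0 < D2 ν (L + 1) c := by
      unfold D2
      have q1 : 0 < ν + 2 * ((L + 1 : ℕ) : ℝ) := by push_cast; linarith
      have q2 : 0 < ν + 2 * ((L + 1 : ℕ) : ℝ) - 1 := by push_cast; linarith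
      have q3 : 0 < 4 * ((L + 1 : ℕ) : ℝ) - 2 := by push_cast; linarith
      positivity
    linarith
  obtain ⟨A, hA⟩ : ∃ A, A = g (ν + L + 1) c := ⟨_, rfl⟩
  obtain ⟨B, hB⟩ : ∃ B, B = g (ν + L + 2) c := ⟨_, rfl⟩
  have e1 : D2 ν (L + 1) c = (4 * c + (ν + 2 * L + 2) * (ν + 2 * L + 1)) * A +
      (4 * L + 2) * c * B := by
    unfold D2
    push_cast
    rw [hA, hB, show ν + (L + 1 : ℝ) = ν + L + 1 by ring, show ν + (L : ℝ) + 1 + 1 = ν + L + 2 by ring]
    ring
  have e0 : D2 ν L c = (4 * c + (ν + 2 * L) * (ν + 2 * L - 1)) * ((ν + L + 1) * A + c * B) +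
      (4 * L - 2) * c * A := by
    unfold D2
    have := g_rec (ν + L) c
    rw [this, hA, hB]
  have e2 : D2 ν (L + 2) c = (4 * c + (ν + 2 * L + 4) * (ν + 2 * L + 3)) * B +
      (4 * L + 6) * (A - (ν + L + 2) * B) := by
    unfold D2
    have := g_rec (ν + L + 1) c
    rw [show ν + (L : ℝ) + 1 + 1 = ν + L + 2 by ring, ← hA, ← hB] at this
    push_cast
    rw [show ν + (L + 2 : ℝ) = ν + L + 2 by ring, show ν + (L : ℝ) + 2 + 1 = ν + L + 1 + 2 by ring,
      ← hB]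
    linear_combination (-(4 * (L : ℝ) + 6)) * this
  have hA0 : A ≠ 0 := by
    intro hA0
    have hB0 : B = 0 := by
      rw [e1, hA0] at h0
      have h3 : ((4 * (L : ℝ) + 2) * c) * B = 0 := by linarith
      exact (mul_eq_zero.mp h3).resolve_left (mul_ne_zero (by positivity) hc0)
    obtain ⟨m, hm⟩ := hne
    apply hm
    have hz := g_zero_all (μ := ν + L + 1) hc0 (by rw [← hA]; exact hA0)
      (by rw [show ν + (L : ℝ) + 1 + 1 = ν + L + 2 by ring, ← hB]; exact hB0) m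
    unfold D2
    push_cast
    rw [show ν + (L + 1 + m : ℝ) = ν + L + 1 + m by ring, hz.1, hz.2]
    ring
  have k0 : (4 * L + 2) * c * B = -(4 * c + (ν + 2 * L + 2) * (ν + 2 * L + 1)) * A := by
    rw [e1] at h0; linarith
  obtain ⟨Q1, hQ1⟩ : ∃ Q1, Q1 = (4 * c + (ν + 2 * L) * (ν + 2 * L - 1)) * (4 * c + ν * (ν + 1)) -
      (4 * L - 2) * (4 * L + 2) * c := ⟨_, rfl⟩
  obtain ⟨Q2, hQ2⟩ : ∃ Q2, Q2 = (4 * c + (ν + 2 * L + 2) * (ν + 2 * L + 1)) *
      (4 * c + ν * (ν + 1)) - (4 * L + 6) * (4 * L + 2) * c := ⟨_, rfl⟩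
  have k1 : (4 * L + 2) * D2 ν L c = -Q1 * A := by
    rw [e0, hQ1]; linear_combination (4 * c + (ν + 2 * L) * (ν + 2 * L - 1)) * k0
  have k2 : (4 * L + 2) * c * D2 ν (L + 2) c = -Q2 * A := by
    rw [e2, hQ2]
    linear_combination (4 * c + (ν + 2 * L + 4) * (ν + 2 * L + 3) -
      (4 * L + 6) * (ν + L + 2)) * k0
  have k3 : (4 * L + 2) ^ 2 * c * (D2 ν L c * D2 ν (L + 2) c) = A ^ 2 * (Q1 * Q2) := by
    have : (4 * L + 2) ^ 2 * c * (D2 ν L c * D2 ν (L + 2) c) =
        ((4 * L + 2) * D2 ν L c) * ((4 * L + 2) * c * D2 ν (L + 2) c) := by ring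
    rw [this, k1, k2]; ring
  have hA2 : 0 < A ^ 2 := by positivity
  have hL2 : 0 < (4 * (L : ℝ) + 2) ^ 2 := by positivity
  have g0 : 0 < ν * (ν + 1) := mul_pos_of_neg_of_neg (by linarith) (by linarith)
  have g01 : ν * (ν + 1) ≤ 11 / 1000 := by nlinarith
  have d0 : (ν + 2) * (ν + 1) < 0 := mul_neg_of_pos_of_neg (by linarith) (by linarith)
  -- reduction to the sign of `Q1 * Q2`
  have fin1 : c < 0 → 0 < Q1 * Q2 → D2 ν L c * D2 ν (L + 2) c < 0 := by
    intro hc hQ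
    have h3 : 0 < (4 * (L : ℝ) + 2) ^ 2 * c * (D2 ν L c * D2 ν (L + 2) c) := by
      rw [k3]; positivity
    have h4 : (4 * (L : ℝ) + 2) ^ 2 * c < 0 := mul_neg_of_pos_of_neg hL2 hc
    by_contra hcon
    push Not at hcon
    have := mul_nonpos_of_nonpos_of_nonneg h4.le hcon
    linarith
  have fin2 : 0 < c → Q1 * Q2 < 0 → D2 ν L c * D2 ν (L + 2) c < 0 := by
    intro hc hQ
    have h3 : (4 * (L : ℝ) + 2) ^ 2 * c * (D2 ν L c * D2 ν (L + 2) c) < 0 := by
      rw [k3]; exact mul_neg_of_pos_of_neg hA2 hQ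
    have h4 : 0 < (4 * (L : ℝ) + 2) ^ 2 * c := mul_pos hL2 hc
    by_contra hcon
    push Not at hcon
    have := mul_nonneg h4.le hcon
    linarith
  rcases Nat.eq_zero_or_pos L with hL | hL
  · subst hL
    simp only [Nat.cast_zero, mul_zero, add_zero, zero_sub, zero_add] at hQ1 hQ2 e1 h0
    rcases lt_or_gt_of_ne hc0 with hc | hc
    · have hc8 : c < -(8 / 10) := by
        by_contra hcon
        push Not at hcon
        have := D2_one_neg h1 h2 hcon hc.le
        linarith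
      apply fin1 hc
      apply mul_pos
      · rw [hQ1]
        have w1 : 0 < ν * (ν - 1) := mul_pos_of_neg_of_neg (by linarith) (by linarith)
        have w2 : ν * (ν - 1) ≤ 2031 / 1000 := by nlinarith
        nlinarith [mul_pos (show 0 < -(4 * c) - ν * (ν - 1) by linarith)
          (show 0 < -(4 * c) - ν * (ν + 1) by linarith)]
      · rw [hQ2]
        nlinarith [mul_pos (show 0 < -(4 * c) - (ν + 2) * (ν + 1) by linarith)
          (show 0 < -(4 * c) - ν * (ν + 1) by linarith)]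
    · have p1 := g_pos (μ := ν + (0 : ℕ) + 1) (by push_cast; linarith) hc.le
      have p2 := g_pos (μ := ν + (0 : ℕ) + 2) (by push_cast; linarith) hc.le
      rw [← hA] at p1
      rw [← hB] at p2
      have hneg : 4 * c + (ν + 2) * (ν + 1) < 0 := by
        by_contra hcon
        push Not at hcon
        have : 0 < (4 * c + (ν + 2) * (ν + 1)) * A + 2 * c * B := by positivity
        linarith
      apply fin2 hc
      apply mul_neg_of_pos_of_neg
      · rw [hQ1]
        have w1 : 0 < ν * (ν - 1) := mul_pos_of_neg_of_neg (by linarith) (by linarith)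
        have := mul_pos (show 0 < 4 * c + ν * (ν - 1) by linarith)
          (show 0 < 4 * c + ν * (ν + 1) by linarith)
        nlinarith
      · rw [hQ2]
        have := mul_neg_of_neg_of_pos hneg (show 0 < 4 * c + ν * (ν + 1) by linarith)
        nlinarith
  · have hc := hcneg hL
    apply fin1 hc
    apply mul_pos
    · rcases Nat.lt_or_ge L 2 with hL2' | hL2'
      · have hL1 : L = 1 := by omega
        subst hL1
        have hc1 : c < -(1 / 10) := by
          by_contra hcon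
          push Not at hcon
          have := D2_two_pos h1 h2 hcon hc.le
          rw [show 1 + 1 = 2 from rfl] at h0
          linarith
        rw [hQ1]
        push_cast
        have w := mul_pos (show 0 < -(4 * c) - (ν + 2) * (ν + 1) by linarith)
          (show 0 < -(4 * c) - ν * (ν + 1) by linarith)
        nlinarith
      · rw [hQ1]
        exact Q1_pos h1 h2 (by exact_mod_cast hL2') hc
    · rw [hQ2]
      have hL1 : (1 : ℝ) ≤ L := by exact_mod_cast hL
      have := Q1_pos h1 h2 (L := L + 1) (by linarith) hc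
      have e5 : (4 * c + (ν + 2 * L + 2) * (ν + 2 * L + 1)) * (4 * c + ν * (ν + 1)) -
          (4 * L + 6) * (4 * L + 2) * c = (4 * c + (ν + 2 * ((L : ℝ) + 1)) *
          (ν + 2 * ((L : ℝ) + 1) - 1)) * (4 * c + ν * (ν + 1)) -
          (4 * ((L : ℝ) + 1) - 2) * (4 * ((L : ℝ) + 1) + 2) * c := by ring
      rw [e5]
      exact this

end Q45.Bes
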