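import Pool.Agent.Q45.Bes.Series

/-!
The functions `g μ x = ∑ x^m / (m! Γ(m+μ+1))`, derivative, three term recursion, bounds.
-/

namespace Q45.Bes

open Filter Topology

/-- coefficient `1/(m! Γ(m+μ+1))` -/
noncomputable def bc (μ : ℝ) (m : ℕ) : ℝ := 1 / (m.factorial * Real.Gamma (m + μ + 1))

theorem bc_ent (μ : ℝ) : Ent (bc μ) := by
  intro r hr
  obtain ⟨M, hM⟩ := exists_nat_ge (1 - μ)
  rw [← summable_nat_add_iff M]
  have h1 := (summable_nat_add_iff M).mpr (Real.summable_pow_div_factorial r)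
  refine Summable.of_nonneg_of_le (fun m => by positivity) (fun m => ?_) h1
  have h2 : (2 : ℝ) ≤ ((m + M : ℕ) : ℝ) + μ + 1 := by push_cast; linarith [(Nat.cast_nonneg m : (0 : ℝ) ≤ m)]
  have h3 : 1 ≤ Real.Gamma (((m + M : ℕ) : ℝ) + μ + 1) := by
    have := Real.Gamma_strictMonoOn_Ici.monotoneOn (Set.mem_Ici.mpr le_rfl) (Set.mem_Ici.mpr h2) h2
    rwa [Real.Gamma_two] at this
  unfold bc
  rw [Real.norm_eq_abs, abs_of_nonneg (by positivity), div_mul_eq_mul_div, one_mul]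
  apply div_le_div_of_nonneg_left (by positivity) (by positivity)
  exact le_mul_of_one_le_right (by positivity) h3

/-- `g μ x = ∑ x^m / (m! Γ(m+μ+1))` -/
noncomputable def g (μ : ℝ) : ℝ → ℝ := ps (bc μ)

theorem dcoef_bc (μ : ℝ) : dcoef (bc μ) = bc (μ + 1) := by
  funext m
  unfold dcoef bc
  rw [Nat.factorial_succ]
  have h : ((m + 1 : ℕ) : ℝ) + μ + 1 = (m : ℝ) + (μ + 1) + 1 := by push_cast; ring
  rw [h]
  have h2 : ((m + 1 : ℕ) : ℝ) ≠ 0 := by positivity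
  push_cast at *
  field_simp

theorem g_hasDerivAt (μ x : ℝ) : HasDerivAt (g μ) (g (μ + 1) x) x := by
  have := (bc_ent μ).hasDerivAt x
  rw [dcoef_bc] at this
  exact this

theorem inv_Gamma_rec (s : ℝ) : 1 / Real.Gamma s = s * (1 / Real.Gamma (s + 1)) := by
  rcases eq_or_ne s 0 with h | h
  · subst h; simp [Real.Gamma_zero]
  · rw [Real.Gamma_add_one h]
    rcases eq_or_ne (Real.Gamma s) 0 with h2 | h2
    · rw [h2]; simp
    · field_simp

/-- `1/(m! Γ(m+μ+1)) = (m+μ+1)/(m! Γ(m+μ+2))` -/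
theorem bc_rec (μ : ℝ) (m : ℕ) : bc μ m = (m + μ + 1) * bc (μ + 1) m := by
  unfold bc
  have h := inv_Gamma_rec (m + μ + 1)
  have h1 : (m : ℝ) + (μ + 1) + 1 = m + μ + 1 + 1 := by ring
  rw [h1, ← one_div_mul_one_div, h, ← one_div_mul_one_div]
  ring

theorem bc_succ (μ : ℝ) (m : ℕ) : ((m + 1 : ℕ) : ℝ) * bc μ (m + 1) = bc (μ + 1) m :=
  congrFun (dcoef_bc μ) m

/-- The recursion `g_μ = (μ+1) g_{μ+1} + x g_{μ+2}`. -/
theorem g_rec (μ x : ℝ) : g μ x = (μ + 1) * g (μ + 1) x + x * g (μ + 2) x := by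
  have h0 := (bc_ent μ).hasSum x
  have h1 := ((bc_ent (μ + 1)).hasSum x).mul_left (μ + 1)
  have h2 := (bc_ent (μ + 1)).hasSum_theta x
  rw [dcoef_bc, show μ + 1 + 1 = μ + 2 by ring] at h2
  have h3 := h1.add h2
  have e : (fun m : ℕ => bc μ m * x ^ m) =
      fun m : ℕ => (μ + 1) * (bc (μ + 1) m * x ^ m) + (m : ℝ) * bc (μ + 1) m * x ^ m := by
    funext m
    rw [bc_rec μ m]
    ring
  rw [← e] at h3
  exact h0.unique h3

theorem g_theta (μ x : ℝ) : HasSum (fun m : ℕ => (m : ℝ) * bc μ m * x ^ m) (x * g (μ + 1) x) := by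
  have h2 := (bc_ent μ).hasSum_theta x
  rwa [dcoef_bc] at h2

theorem bc_pos {μ : ℝ} (hμ : -1 < μ) (m : ℕ) : 0 < bc μ m := by
  unfold bc
  have h : 0 < (m : ℝ) + μ + 1 := by linarith [(Nat.cast_nonneg m : (0 : ℝ) ≤ m)]
  have := Real.Gamma_pos_of_pos h
  positivity

/-- size of the coefficients -/
theorem bc_le {μ : ℝ} (hμ : -1 < μ) (m : ℕ) :
    bc μ m ≤ bc μ 0 * ((1 / (μ + 1)) ^ m / m.factorial) := by
  induction m with
  | zero => simp
  | succ m ih =>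
    have h1 := bc_succ μ m
    have h2 := bc_rec μ m
    have h3 : 0 < μ + 1 := by linarith
    have h4 := bc_pos hμ m
    have h5 : 0 < bc (μ + 1) m := bc_pos (by linarith) m
    have h6 : (μ + 1) * bc (μ + 1) m ≤ bc μ m := by
      rw [h2]
      have : (μ + 1) ≤ (m : ℝ) + μ + 1 := by linarith [(Nat.cast_nonneg m : (0 : ℝ) ≤ m)]
      exact mul_le_mul_of_nonneg_right this h5.le
    have h7 : bc (μ + 1) m ≤ bc μ m / (μ + 1) := by
      rw [le_div_iff₀ h3]; linarith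
    have h8 : (0 : ℝ) < ((m + 1 : ℕ) : ℝ) := by positivity
    have h9 : bc μ (m + 1) = bc (μ + 1) m / ((m + 1 : ℕ) : ℝ) := by
      rw [eq_div_iff h8.ne']; linarith
    rw [h9, Nat.factorial_succ]
    calc bc (μ + 1) m / ((m + 1 : ℕ) : ℝ) ≤ (bc μ m / (μ + 1)) / ((m + 1 : ℕ) : ℝ) := by gcongr
      _ ≤ (bc μ 0 * ((1 / (μ + 1)) ^ m / m.factorial) / (μ + 1)) / ((m + 1 : ℕ) : ℝ) := by gcongr
      _ = bc μ 0 * ((1 / (μ + 1)) ^ (m + 1) / (((m + 1) * m.factorial : ℕ) : ℝ)) := by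
        push_cast
        rw [pow_succ]
        field_simp

/-- `g` is positive on the nonnegative axis. -/
theorem g_pos {μ : ℝ} (hμ : -1 < μ) {x : ℝ} (hx : 0 ≤ x) : 0 < g μ x := by
  have h := (bc_ent μ).hasSum x
  have h2 : bc μ 0 * x ^ 0 ≤ g μ x := by
    refine le_hasSum h 0 fun m _ => ?_
    have := bc_pos hμ m
    positivity
  have := bc_pos hμ 0
  simp only [pow_zero, mul_one] at h2
  linarith

/-- Two sided bound near the origin. -/
theorem g_near {μ : ℝ} (hμ : -1 < μ) (x : ℝ) :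
    |g μ x - bc μ 0| ≤ bc μ 0 * (Real.exp (|x| / (μ + 1)) - 1) := by
  have h3 : 0 < μ + 1 := by linarith
  have h0 := bc_pos hμ 0
  have h := (bc_ent μ).hasSum x
  rw [← hasSum_nat_add_iff' 1] at h
  simp only [Finset.range_one, Finset.sum_singleton, pow_zero, mul_one] at h
  have hE : HasSum (fun m : ℕ => bc μ 0 * ((|x| / (μ + 1)) ^ (m + 1) / ((m + 1).factorial : ℝ)))
      (bc μ 0 * (Real.exp (|x| / (μ + 1)) - 1)) := by
    refine HasSum.mul_left _ ?_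
    have := NormedSpace.expSeries_div_hasSum_exp (𝔸 := ℝ) (|x| / (μ + 1))
    rw [← Real.exp_eq_exp_ℝ, ← hasSum_nat_add_iff' 1] at this
    simpa using this
  have h5 : ∀ m : ℕ, ‖bc μ (m + 1) * x ^ (m + 1)‖ ≤
      bc μ 0 * ((|x| / (μ + 1)) ^ (m + 1) / ((m + 1).factorial : ℝ)) := by
    intro m
    rw [norm_mul, norm_pow, Real.norm_eq_abs, Real.norm_eq_abs, abs_of_pos (bc_pos hμ _)]
    calc bc μ (m + 1) * |x| ^ (m + 1)
        ≤ bc μ 0 * ((1 / (μ + 1)) ^ (m + 1) / (m + 1).factorial) * |x| ^ (m + 1) := by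
          gcongr; exact bc_le hμ (m + 1)
      _ = _ := by rw [div_pow, div_pow, one_pow]; ring
  have h6 := hE.summable
  have h7 := tsum_of_norm_bounded hE h5
  rw [h.tsum_eq] at h7
  exact h7

end Q45.Bes
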