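import Mathlib

/-!
Everywhere convergent power series: termwise derivative.
-/

namespace Q45.Bes

open Filter Topology

variable {𝕜 : Type*} [RCLike 𝕜]

/-- Everywhere absolutely convergent coefficient sequences. -/
def Ent (c : ℕ → 𝕜) : Prop := ∀ r : ℝ, 0 ≤ r → Summable fun m => ‖c m‖ * r ^ m

/-- The sum of the power series. -/
noncomputable def ps (c : ℕ → 𝕜) (x : 𝕜) : 𝕜 := ∑' m, c m * x ^ m

theorem Ent.summable {c : ℕ → 𝕜} (hc : Ent c) (x : 𝕜) : Summable fun m => c m * x ^ m := by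
  refine Summable.of_norm ?_
  simpa [norm_mul, norm_pow] using hc ‖x‖ (norm_nonneg _)

theorem Ent.hasSum {c : ℕ → 𝕜} (hc : Ent c) (x : 𝕜) : HasSum (fun m => c m * x ^ m) (ps c x) :=
  (hc.summable x).hasSum

/-- the coefficients of the derivative -/
def dcoef (c : ℕ → 𝕜) (m : ℕ) : 𝕜 := ((m + 1 : ℕ) : 𝕜) * c (m + 1)

theorem Ent.dcoef {c : ℕ → 𝕜} (hc : Ent c) : Ent (dcoef c) := by
  intro r hr
  have h2 := (summable_nat_add_iff 1).mpr (hc (2 * (r + 1)) (by positivity))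
  refine Summable.of_nonneg_of_le (fun m => by positivity) (fun m => ?_) h2
  have e1 : ‖Q45.Bes.dcoef c m‖ = (m + 1 : ℝ) * ‖c (m + 1)‖ := by
    unfold Q45.Bes.dcoef
    rw [norm_mul, RCLike.norm_natCast]
    push_cast
    ring
  rw [e1, mul_pow]
  have h3 : (m + 1 : ℝ) ≤ 2 ^ (m + 1) := by
    have := Nat.lt_two_pow_self (n := m + 1)
    exact_mod_cast this.le
  have h4 : r ^ m ≤ (r + 1) ^ (m + 1) := by
    calc r ^ m ≤ (r + 1) ^ m := by gcongr; linarith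
      _ ≤ (r + 1) ^ (m + 1) := pow_le_pow_right₀ (by linarith) (by omega)
  calc (m + 1 : ℝ) * ‖c (m + 1)‖ * r ^ m = ‖c (m + 1)‖ * ((m + 1 : ℝ) * r ^ m) := by ring
    _ ≤ ‖c (m + 1)‖ * (2 ^ (m + 1) * (r + 1) ^ (m + 1)) := by gcongr

theorem Ent.hasDerivAt {c : ℕ → 𝕜} (hc : Ent c) (x : 𝕜) :
    HasDerivAt (ps c) (ps (Q45.Bes.dcoef c) x) x := by
  set R : ℝ := ‖x‖ + 1 with hR
  have hR0 : 0 ≤ R := by positivity
  have hu : Summable fun m : ℕ => (m : ℝ) * ‖c m‖ * R ^ (m - 1) := by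
    rw [← summable_nat_add_iff 1]
    have := hc.dcoef R hR0
    refine this.congr fun m => ?_
    unfold Q45.Bes.dcoef
    rw [norm_mul, RCLike.norm_natCast]
    simp
  have hD := hasDerivAt_tsum_of_isPreconnected (𝕜 := 𝕜) (F := 𝕜)
    (g := fun m z => c m * z ^ m) (g' := fun m z => c m * ((m : 𝕜) * z ^ (m - 1)))
    (t := Metric.ball 0 R) (y₀ := x) (y := x) hu Metric.isOpen_ball
    (convex_ball (0 : 𝕜) R).isPreconnected
    (fun m z _ => (hasDerivAt_pow m z).const_mul (c m))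
    (fun m z hz => by
      have hz' : ‖z‖ ≤ R := by
        have := mem_ball_zero_iff.mp hz
        exact this.le
      rw [norm_mul, norm_mul, norm_pow, RCLike.norm_natCast]
      calc ‖c m‖ * ((m : ℝ) * ‖z‖ ^ (m - 1)) = (m : ℝ) * ‖c m‖ * ‖z‖ ^ (m - 1) := by ring
        _ ≤ (m : ℝ) * ‖c m‖ * R ^ (m - 1) := by gcongr)
    (by simp [hR]) (hc.summable x) (by simp [hR])
  have e : (∑' m : ℕ, c m * ((m : 𝕜) * x ^ (m - 1))) = ps (Q45.Bes.dcoef c) x := by
    have hs : Summable fun m : ℕ => c m * ((m : 𝕜) * x ^ (m - 1)) := by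
      refine Summable.of_norm_bounded hu fun m => ?_
      rw [norm_mul, norm_mul, norm_pow, RCLike.norm_natCast]
      calc ‖c m‖ * ((m : ℝ) * ‖x‖ ^ (m - 1)) = (m : ℝ) * ‖c m‖ * ‖x‖ ^ (m - 1) := by ring
        _ ≤ (m : ℝ) * ‖c m‖ * R ^ (m - 1) := by gcongr; linarith
    rw [hs.tsum_eq_zero_add]
    unfold ps Q45.Bes.dcoef
    simp only [Nat.cast_zero, zero_mul, mul_zero, zero_add]
    refine tsum_congr fun m => ?_
    rw [show m + 1 - 1 = m from rfl]
    ring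
  rw [← e]
  exact hD

theorem Ent.hasSum_theta {c : ℕ → 𝕜} (hc : Ent c) (x : 𝕜) :
    HasSum (fun m : ℕ => (m : 𝕜) * c m * x ^ m) (x * ps (Q45.Bes.dcoef c) x) := by
  rw [← hasSum_nat_add_iff' 1]
  simp only [Finset.range_one, Finset.sum_singleton, Nat.cast_zero, zero_mul, sub_zero]
  have h := (hc.dcoef.hasSum x).mul_left x
  have e : (fun n : ℕ => ((n + 1 : ℕ) : 𝕜) * c (n + 1) * x ^ (n + 1)) =
      fun i => x * (Q45.Bes.dcoef c i * x ^ i) := by
    funext m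
    unfold Q45.Bes.dcoef
    ring
  rw [e]
  exact h

end Q45.Bes
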